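import Mathlib

/-!
# Project FI: formal products `∏ (1 - [β_i])` supported on the integers
-/

set_option autoImplicit false

open Polynomial Filter Topology

namespace Pool.Agent.N17.FI

variable {r : ℕ}

/-- the sum over the multiset of submultisets in terms of the finset of subsets -/
theorem sum_powerset_map {ι : Type*} [DecidableEq ι] (β : ι → ℂ) (G : Multiset ℂ → ℂ)
    (T : Finset ι) :
    ((T.val.map β).powerset.map G).sum = ∑ S ∈ T.powerset, G (S.val.map β) := by
  induction T using Finset.induction_on generalizing G with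
  | empty => simp
  | insert a T ha ih =>
    rw [Finset.sum_powerset_insert ha, Finset.insert_val_of_notMem ha, Multiset.map_cons,
      Multiset.powerset_cons, Multiset.map_add, Multiset.sum_add, ih, Multiset.map_map]
    have := ih (fun S => G (β a ::ₘ S))
    rw [show (G ∘ Multiset.cons (β a)) = fun S => G (β a ::ₘ S) from rfl, this]
    congr 1
    refine Finset.sum_congr rfl fun S hS => ?_
    have haS : a ∉ S := fun h => ha (Finset.mem_powerset.1 hS h)
    rw [Finset.insert_val_of_notMem haS, Multiset.map_cons]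

/-- the periodicity argument -/
theorem all_int (β : Fin r → ℂ) (h0 : ∀ i, β i ≠ 0)
    (h : ∀ v : ℂ, (∀ m : ℤ, v ≠ m) →
      ∑ S : Finset (Fin r) with ∑ i ∈ S, β i = v, (-1 : ℂ) ^ S.card = 0) :
    ∀ i, ∃ m : ℤ, β i = m := by
  classical
  -- functions which vanish on the integers
  have hG : ∀ g : ℂ → ℂ, (∀ m : ℤ, g m = 0) →
      ∑ S : Finset (Fin r), (-1 : ℂ) ^ S.card * g (∑ i ∈ S, β i) = 0 := by
    intro g hg
    rw [← Finset.sum_fiberwise_of_maps_to
      (t := Finset.univ.image fun S : Finset (Fin r) => ∑ i ∈ S, β i)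
      (g := fun S : Finset (Fin r) => ∑ i ∈ S, β i)
      (fun S _ => Finset.mem_image_of_mem _ (Finset.mem_univ S))]
    refine Finset.sum_eq_zero fun v _ => ?_
    have e : ∑ S : Finset (Fin r) with ∑ i ∈ S, β i = v,
        (-1 : ℂ) ^ S.card * g (∑ i ∈ S, β i) =
        (∑ S : Finset (Fin r) with ∑ i ∈ S, β i = v, (-1 : ℂ) ^ S.card) * g v := by
      rw [Finset.sum_mul]
      refine Finset.sum_congr rfl fun S hS => ?_
      rw [(Finset.mem_filter.1 hS).2]
    rw [e]
    by_cases hv : ∀ m : ℤ, v ≠ m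
    · rw [h v hv, zero_mul]
    · push Not at hv
      obtain ⟨m, rfl⟩ := hv
      rw [hg m, mul_zero]
  have hprod : ∀ x : Fin r → ℂ, ∏ i, (1 - Complex.exp (x i)) =
      ∑ S : Finset (Fin r), (-1 : ℂ) ^ S.card * Complex.exp (∑ i ∈ S, x i) := by
    intro x
    have := Finset.prod_one_add (f := fun i => -Complex.exp (x i)) (Finset.univ : Finset (Fin r))
    simp only [← sub_eq_add_neg] at this
    rw [this, Finset.powerset_univ]
    refine Finset.sum_congr rfl fun S _ => ?_
    rw [Complex.exp_sum, Finset.prod_neg]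
  -- periodicity
  have hper : ∀ s : ℂ, ∏ i, (1 - Complex.exp (β i * (s + 2 * Real.pi * Complex.I))) =
      ∏ i, (1 - Complex.exp (β i * s)) := by
    intro s
    rw [hprod, hprod, ← sub_eq_zero, ← Finset.sum_sub_distrib]
    have := hG (fun v => Complex.exp (v * (s + 2 * Real.pi * Complex.I)) - Complex.exp (v * s))
      (fun m => by
        rw [mul_add, Complex.exp_add, Complex.exp_int_mul_two_pi_mul_I, mul_one, sub_self])
    rw [← this]
    refine Finset.sum_congr rfl fun S _ => ?_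
    rw [mul_sub, Finset.sum_mul, Finset.sum_mul]
  by_contra hcon
  push Not at hcon
  obtain ⟨i₀, hi₀⟩ := hcon
  let J : Finset (Fin r) := Finset.univ.filter fun i => ∃ m : ℤ, β i = m
  have hne : ∀ᶠ s in 𝓝[≠] (0 : ℂ), ∀ i, Complex.exp (β i * s) ≠ 1 := by
    rw [Filter.eventually_all]
    intro i
    have h1 : ∀ᶠ s in 𝓝 (0 : ℂ), ‖β i * s‖ < 1 := by
      have : Tendsto (fun s : ℂ => ‖β i * s‖) (𝓝 0) (𝓝 0) := by
        have h2 : Continuous fun s : ℂ => ‖β i * s‖ := by fun_prop
        simpa using h2.tendsto 0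
      exact this.eventually_lt_const one_pos
    filter_upwards [h1.filter_mono nhdsWithin_le_nhds, self_mem_nhdsWithin] with s h2 h3 h4
    obtain ⟨n, hn⟩ := Complex.exp_eq_one_iff.1 h4
    have h5 : n = 0 := by
      by_contra hn0
      have h6 : (1 : ℝ) ≤ |(n : ℝ)| := by
        exact_mod_cast Int.one_le_abs hn0
      have h7 : ‖β i * s‖ = |(n : ℝ)| * (2 * Real.pi) := by
        rw [hn, norm_mul, norm_mul, norm_mul, Complex.norm_I, mul_one, Complex.norm_real,
          Complex.norm_intCast]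
        simp [abs_of_pos Real.pi_pos]
      have h8 := Real.pi_gt_three
      nlinarith
    rw [h5] at hn
    simp only [Int.cast_zero, zero_mul, mul_eq_zero] at hn
    rcases hn with hn | hn
    · exact h0 i hn
    · exact h3 hn
  have hev : ∀ᶠ s in 𝓝[≠] (0 : ℂ),
      ∏ i ∈ Jᶜ, (1 - Complex.exp (β i * (s + 2 * Real.pi * Complex.I))) =
      ∏ i ∈ Jᶜ, (1 - Complex.exp (β i * s)) := by
    filter_upwards [hne] with s hs
    have h1 := hper s
    rw [← Finset.prod_mul_prod_compl J, ← Finset.prod_mul_prod_compl J] at h1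
    have h2 : ∏ i ∈ J, (1 - Complex.exp (β i * (s + 2 * Real.pi * Complex.I))) =
        ∏ i ∈ J, (1 - Complex.exp (β i * s)) := by
      refine Finset.prod_congr rfl fun i hi => ?_
      obtain ⟨m, hm⟩ := (Finset.mem_filter.1 hi).2
      rw [hm, mul_add, Complex.exp_add, Complex.exp_int_mul_two_pi_mul_I, mul_one]
    rw [h2] at h1
    refine mul_left_cancel₀ ?_ h1
    exact Finset.prod_ne_zero_iff.2 fun i _ => sub_ne_zero.2 (hs i).symm
  have hl : Tendsto (fun s : ℂ => ∏ i ∈ Jᶜ, (1 - Complex.exp (β i * (s + 2 * Real.pi * Complex.I))))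
      (𝓝[≠] 0) (𝓝 (∏ i ∈ Jᶜ, (1 - Complex.exp (β i * (0 + 2 * Real.pi * Complex.I))))) := by
    have h2 : Continuous fun s : ℂ =>
      ∏ i ∈ Jᶜ, (1 - Complex.exp (β i * (s + 2 * Real.pi * Complex.I))) := by fun_prop
    exact (h2.tendsto 0).mono_left nhdsWithin_le_nhds
  have hr : Tendsto (fun s : ℂ => ∏ i ∈ Jᶜ, (1 - Complex.exp (β i * s)))
      (𝓝[≠] 0) (𝓝 (∏ i ∈ Jᶜ, (1 - Complex.exp (β i * 0)))) := by
    have h2 : Continuous fun s : ℂ => ∏ i ∈ Jᶜ, (1 - Complex.exp (β i * s)) := by fun_prop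
    exact (h2.tendsto 0).mono_left nhdsWithin_le_nhds
  have heq := tendsto_nhds_unique (hl.congr' hev) hr
  have hi₀J : i₀ ∈ Jᶜ := by
    rw [Finset.mem_compl, Finset.mem_filter]
    rintro ⟨-, m, hm⟩
    exact hi₀ m hm
  rw [Finset.prod_eq_zero (i := i₀) (s := Jᶜ) (f := fun i => 1 - Complex.exp (β i * 0)) hi₀J
    (by simp)] at heq
  rw [Finset.prod_eq_zero_iff] at heq
  obtain ⟨i, hi, hi2⟩ := heq
  rw [sub_eq_zero, eq_comm, zero_add, Complex.exp_eq_one_iff] at hi2
  obtain ⟨n, hn⟩ := hi2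
  rw [Finset.mem_compl, Finset.mem_filter] at hi
  refine hi ⟨Finset.mem_univ i, n, ?_⟩
  exact mul_right_cancel₀ Complex.two_pi_I_ne_zero hn

end Pool.Agent.N17.FI
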