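import Pool.Agent.N17.FI.A
import Pool.Agent.N17.HC.Stm

/-!
# Project FI: the gap lemma
-/

set_option autoImplicit false

open Polynomial Filter Topology

namespace Pool.Agent.N17.FI

open Pool.Agent.N17.HC

/-- Pascal's rule -/
theorem bin_pascal (n : ℕ) (x : ℂ) : bin (n + 1) (x + 1) - bin (n + 1) x = bin n x := by
  unfold bin
  have h1 : ∏ j ∈ Finset.range (n + 1), (x + 1 - (j : ℂ)) =
      (x + 1) * ∏ j ∈ Finset.range n, (x - j) := by
    rw [Finset.prod_range_succ', mul_comm]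
    congr 1
    · simp
    · refine Finset.prod_congr rfl fun j _ => ?_
      push_cast
      ring
  rw [h1, Finset.prod_range_succ]
  have h2 : ((n + 1).factorial : ℂ) ≠ 0 := by exact_mod_cast Nat.factorial_ne_zero _
  have h3 : (n.factorial : ℂ) ≠ 0 := by exact_mod_cast Nat.factorial_ne_zero _
  rw [← sub_div, div_eq_div_iff h2 h3, Nat.factorial_succ]
  push_cast
  ring

/-- reflection -/
theorem bin_reflect (N : ℕ) (y : ℂ) : bin N (-1 - y) = (-1) ^ N * bin N (N + y) := by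
  unfold bin
  rw [mul_div_assoc']
  congr 1
  rw [← Finset.prod_range_reflect (fun j => (N : ℂ) + y - (j : ℂ))]
  have : ((-1 : ℂ)) ^ N = ∏ _j ∈ Finset.range N, (-1 : ℂ) := by simp
  rw [this, ← Finset.prod_mul_distrib]
  refine Finset.prod_congr rfl fun j hj => ?_
  have hj' := Finset.mem_range.1 hj
  rw [show N - 1 - j = N - (j + 1) by omega, Nat.cast_sub (by omega)]
  push_cast
  ring

theorem bin_nat_zero (N : ℕ) (z : ℤ) (h0 : 0 ≤ z) (h1 : z < N) : bin N (z : ℂ) = 0 := by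
  unfold bin
  rw [Finset.prod_eq_zero (i := z.toNat) (Finset.mem_range.2 (by omega))]
  · simp
  · have : ((z.toNat : ℕ) : ℤ) = z := Int.toNat_of_nonneg h0
    rw [sub_eq_zero]
    exact_mod_cast this.symm

/-- `bin` at a larger index -/
theorem bin_split (n₀ e : ℕ) (y : ℂ) : ((n₀ + e).factorial : ℂ) * bin (n₀ + e) y =
    (∏ j ∈ Finset.range n₀, (y - j)) * ∏ i ∈ Finset.range e, (y - (n₀ + i : ℕ)) := by
  unfold bin
  have h2 : ((n₀ + e).factorial : ℂ) ≠ 0 := by exact_mod_cast Nat.factorial_ne_zero _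
  rw [mul_div_cancel₀ _ h2, Finset.prod_range_add]

/-- a linear functional which vanishes on monic polynomials of all degrees `≤ M` -/
theorem lin_zero (M : ℕ) (L : ℂ[X] →ₗ[ℂ] ℂ) (q : ℕ → ℂ[X]) (hq : ∀ e, (q e).Monic)
    (hd : ∀ e, (q e).natDegree = e) (hL : ∀ e ≤ M, L (q e) = 0) :
    ∀ e ≤ M, ∀ g : ℂ[X], g.natDegree ≤ e → L g = 0 := by
  intro e
  induction e with
  | zero =>
    intro _ g hg
    have h1 : q 0 = 1 := (hq 0).natDegree_eq_zero.1 (hd 0)
    have h2 : g = g.coeff 0 • (q 0) := by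
      rw [h1, smul_eq_C_mul, mul_one]
      exact eq_C_of_natDegree_le_zero hg
    rw [h2, map_smul, hL 0 (Nat.zero_le _), smul_zero]
  | succ e ih =>
    intro he g hg
    have h1 : L (g - g.coeff (e + 1) • q (e + 1)) = 0 := by
      refine ih (by omega) _ ?_
      rw [natDegree_le_iff_coeff_eq_zero]
      intro m hm
      rw [coeff_sub, coeff_smul, smul_eq_mul]
      rcases Nat.lt_or_ge m (e + 2) with h | h
      · have : m = e + 1 := by omega
        rw [this]
        have h2 : (q (e + 1)).coeff (e + 1) = 1 := by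
          have := (hq (e + 1)).coeff_natDegree
          rwa [hd (e + 1)] at this
        rw [h2, mul_one, sub_self]
      · rw [coeff_eq_zero_of_natDegree_lt (lt_of_le_of_lt hg (by omega)),
          coeff_eq_zero_of_natDegree_lt (lt_of_le_of_lt (hd (e + 1)).le (by omega)), mul_zero,
          sub_zero]
    rw [map_sub, map_smul, hL _ he, smul_zero, sub_zero] at h1
    exact h1

/-- Lagrange interpolation -/
theorem separate {κ : Type*} [DecidableEq κ] (F : Finset κ) (a y : κ → ℂ) (M : ℕ)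
    (hF : F.card ≤ M + 1)
    (h : ∀ g : ℂ[X], g.natDegree ≤ M → ∑ S ∈ F, a S * g.eval (y S) = 0) (v : ℂ) :
    ∑ S ∈ F with y S = v, a S = 0 := by
  classical
  by_cases hv : v ∈ F.image y
  · let g : ℂ[X] := ∏ u ∈ (F.image y).erase v, (X - C u)
    have hg : g.natDegree ≤ M := by
      rw [natDegree_prod_of_monic _ _ fun u _ => monic_X_sub_C u]
      simp only [natDegree_X_sub_C, Finset.sum_const, smul_eq_mul, mul_one]
      rw [Finset.card_erase_of_mem hv]
      have := Finset.card_image_le (s := F) (f := y)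
      omega
    have h1 := h g hg
    have hgv : g.eval v ≠ 0 := by
      rw [eval_prod, Finset.prod_ne_zero_iff]
      intro u hu
      rw [eval_sub, eval_X, eval_C, sub_ne_zero]
      exact (Finset.ne_of_mem_erase hu).symm
    have h2 : ∑ S ∈ F, a S * g.eval (y S) = (∑ S ∈ F with y S = v, a S) * g.eval v := by
      rw [Finset.sum_mul, Finset.sum_filter]
      refine Finset.sum_congr rfl fun S hS => ?_
      split_ifs with hSv
      · rw [hSv]
      · have : g.eval (y S) = 0 := by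
          rw [eval_prod, Finset.prod_eq_zero
            (Finset.mem_erase.2 ⟨hSv, Finset.mem_image_of_mem y hS⟩)]
          simp
        rw [this, mul_zero]
    rw [h2] at h1
    exact (mul_eq_zero.1 h1).resolve_right hgv
  · refine Finset.sum_eq_zero fun S hS => ?_
    exact absurd ((Finset.mem_filter.1 hS).2 ▸ Finset.mem_image_of_mem y (Finset.mem_filter.1 hS).1)
      hv

/-- differences -/
theorem descend {κ : Type*} (F : Finset κ) (a b : κ → ℂ) (N : ℕ) (A B : ℤ)
    (h : ∀ x : ℤ, A ≤ x → x ≤ B → ∑ S ∈ F, a S * bin N (x - b S) = 0) :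
    ∀ e : ℕ, e ≤ N → ∀ x : ℤ, A ≤ x → x ≤ B - e → ∑ S ∈ F, a S * bin (N - e) (x - b S) = 0 := by
  intro e
  induction e with
  | zero =>
    intro _ x h1 h2
    exact h x h1 (by simpa using h2)
  | succ e ih =>
    intro he x h1 h2
    have e1 := ih (by omega) (x + 1) (by omega) (by push_cast at h2; omega)
    have e2 := ih (by omega) x h1 (by push_cast at h2; omega)
    have e3 : ∀ S, bin (N - (e + 1)) (x - b S) =
        bin (N - e) ((x + 1 : ℤ) - b S) - bin (N - e) (x - b S) := by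
      intro S
      have := bin_pascal (N - (e + 1)) (x - b S)
      rw [show N - (e + 1) + 1 = N - e by omega] at this
      rw [← this]
      congr 2
      push_cast
      ring
    simp only [e3, mul_sub, Finset.sum_sub_distrib]
    rw [e1, e2, sub_zero]

/-- the nonempty proper subsets -/
def Fs (r : ℕ) : Finset (Finset (Fin r)) := (Finset.univ.erase Finset.univ).erase ∅

theorem mem_Fs {r : ℕ} (S : Finset (Fin r)) : S ∈ Fs r ↔ S ≠ ∅ ∧ S ≠ Finset.univ := by
  simp [Fs]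

theorem empty_ne_univ {r : ℕ} (hr : 1 ≤ r) : (∅ : Finset (Fin r)) ≠ Finset.univ := by
  have : Nonempty (Fin r) := ⟨⟨0, hr⟩⟩
  exact Finset.univ_nonempty.ne_empty.symm

theorem card_Fs {r : ℕ} (hr : 1 ≤ r) : (Fs r).card = 2 ^ r - 2 := by
  have hne := empty_ne_univ hr
  rw [Fs, Finset.card_erase_of_mem (by simp [hne]), Finset.card_erase_of_mem (Finset.mem_univ _),
    Finset.card_univ, Fintype.card_finset, Fintype.card_fin]
  omega

theorem sum_Fs {r : ℕ} (hr : 1 ≤ r) (f : Finset (Fin r) → ℂ) :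
    ∑ S, f S = f Finset.univ + (f ∅ + ∑ S ∈ Fs r, f S) := by
  have hne := empty_ne_univ hr
  rw [Fs, Finset.add_sum_erase _ _ (by simp [hne]), Finset.add_sum_erase _ _ (Finset.mem_univ _)]

/-- **The gap lemma.** -/
theorem coreK (r N : ℕ) (hr : 1 ≤ r) (A B : ℤ) (hAB : A ≤ B) (hBN : B - A ≤ N)
    (h2r : (2 : ℤ) ^ r ≤ B - A + 3) (β : Fin r → ℂ) (h0 : ∀ i, β i ≠ 0) (c : ℤ)
    (hsum : ∑ i, β i = c)
    (hK : ∀ t : ℤ, A ≤ t → t ≤ B →
      ∑ S ∈ Fs r, (-1 : ℂ) ^ S.card * bin N (N + t - ∑ i ∈ S, β i) = 0) :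
    ∀ i, ∃ m : ℤ, β i = m := by
  classical
  have K3 := descend (Fs r) (fun S => (-1 : ℂ) ^ S.card) (fun S => ∑ i ∈ S, β i) N
    ((N : ℤ) + A) (N + B) (fun x h1 h2 => by
      have := hK (x - N) (by omega) (by omega)
      rw [← this]
      refine Finset.sum_congr rfl fun S _ => ?_
      congr 3
      push_cast
      ring)
  obtain ⟨M, hM⟩ : ∃ M : ℕ, B = A + M := ⟨(B - A).toNat, by omega⟩
  subst hM
  have hMN : M ≤ N := by omega
  have hM2 : 2 ^ r ≤ M + 3 := by
    have : ((2 ^ r : ℕ) : ℤ) ≤ ((M + 3 : ℕ) : ℤ) := by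
      push_cast
      linarith
    exact_mod_cast this
  set n₀ := N - M with hn₀
  let y : Finset (Fin r) → ℂ := fun S => (((N : ℤ) + A : ℤ) : ℂ) - ∑ i ∈ S, β i
  let D : ℂ → ℂ := fun z => ∏ j ∈ Finset.range n₀, (z - j)
  let L : ℂ[X] →ₗ[ℂ] ℂ := ∑ S ∈ Fs r, ((-1 : ℂ) ^ S.card * D (y S)) • Polynomial.leval (y S)
  have hLdef : ∀ g : ℂ[X], L g = ∑ S ∈ Fs r, ((-1 : ℂ) ^ S.card * D (y S)) * g.eval (y S) := by
    intro g
    simp [L]
  let q : ℕ → ℂ[X] := fun e => ∏ i ∈ Finset.range e, (X - C ((n₀ + i : ℕ) : ℂ))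
  have hq : ∀ e, (q e).Monic := fun e => monic_prod_of_monic _ _ fun i _ => monic_X_sub_C _
  have hqd : ∀ e, (q e).natDegree = e := by
    intro e
    rw [natDegree_prod_of_monic _ _ fun i _ => monic_X_sub_C _]
    simp only [natDegree_X_sub_C]
    simp
  have hLq : ∀ e ≤ M, L (q e) = 0 := by
    intro e he
    rw [hLdef]
    have h1 := K3 (M - e) (by omega) ((N : ℤ) + A) le_rfl (by omega)
    rw [show N - (M - e) = n₀ + e by omega] at h1
    have h2 : ∑ S ∈ Fs r, ((-1 : ℂ) ^ S.card * D (y S)) * (q e).eval (y S) =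
        ((n₀ + e).factorial : ℂ) * ∑ S ∈ Fs r, (-1 : ℂ) ^ S.card *
          bin (n₀ + e) ((((N : ℤ) + A : ℤ) : ℂ) - ∑ i ∈ S, β i) := by
      rw [Finset.mul_sum]
      refine Finset.sum_congr rfl fun S _ => ?_
      have h3 := bin_split n₀ e (y S)
      have h4 : (q e).eval (y S) = ∏ i ∈ Finset.range e, (y S - (n₀ + i : ℕ)) := by
        rw [eval_prod]
        refine Finset.prod_congr rfl fun i _ => ?_
        rw [eval_sub, eval_X, eval_C]
      rw [h4]
      linear_combination (-(-1 : ℂ) ^ S.card) * h3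
    rw [h2, h1, mul_zero]
  have hL0 := lin_zero M L q hq hqd hLq M le_rfl
  have hsep := separate (Fs r) (fun S => (-1 : ℂ) ^ S.card * D (y S)) y M
    (by rw [card_Fs hr]; omega) (fun g hg => by rw [← hLdef]; exact hL0 g hg)
  refine all_int β h0 fun v hv => ?_
  have h1 := hsep ((((N : ℤ) + A : ℤ) : ℂ) - v)
  have hD : D ((((N : ℤ) + A : ℤ) : ℂ) - v) ≠ 0 := by
    rw [Finset.prod_ne_zero_iff]
    intro j _ h2
    refine hv (((N : ℤ) + A) - j) ?_
    push_cast at h2 ⊢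
    linear_combination -h2
  have h2 : ∑ S ∈ Fs r with y S = (((N : ℤ) + A : ℤ) : ℂ) - v, ((-1 : ℂ) ^ S.card * D (y S)) =
      (∑ S : Finset (Fin r) with ∑ i ∈ S, β i = v, (-1 : ℂ) ^ S.card) *
        D ((((N : ℤ) + A : ℤ) : ℂ) - v) := by
    rw [Finset.sum_mul]
    refine Finset.sum_congr ?_ ?_
    · ext S
      rw [Finset.mem_filter, Finset.mem_filter, mem_Fs]
      constructor
      · rintro ⟨-, h3⟩
        exact ⟨Finset.mem_univ _, sub_right_injective h3⟩
      · rintro ⟨-, h3⟩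
        refine ⟨⟨?_, ?_⟩, by rw [← h3]⟩
        · rintro rfl
          exact hv 0 (by rw [← h3]; simp)
        · rintro rfl
          refine hv c ?_
          rw [← h3, hsum]
    · intro S hS
      rw [← (Finset.mem_filter.1 hS).2]
  rw [h2] at h1
  exact (mul_eq_zero.1 h1).resolve_right hD

/-- the window form -/
theorem coreW (r N : ℕ) (hr : 1 ≤ r) (A B : ℤ) (hAB : A ≤ B) (hBN : B - A ≤ N)
    (h2r : (2 : ℤ) ^ r ≤ B - A + 3) (β : Fin r → ℂ) (h0 : ∀ i, β i ≠ 0) (c : ℤ)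
    (hsum : ∑ i, β i = c)
    (h : ∀ t : ℤ, A ≤ t → t ≤ B →
      ∑ S : Finset (Fin r), (-1 : ℂ) ^ S.card * bin N (N + t - ∑ i ∈ S, β i) =
        bin N (N + t) + (-1) ^ r * bin N (N + t - c)) :
    ∀ i, ∃ m : ℤ, β i = m := by
  refine coreK r N hr A B hAB hBN h2r β h0 c hsum fun t h1 h2 => ?_
  have h3 := h t h1 h2
  rw [sum_Fs hr, hsum, Finset.card_univ, Fintype.card_fin, Finset.sum_empty, sub_zero,
    Finset.card_empty, pow_zero, one_mul] at h3
  linear_combination h3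

/-- the Fano form -/
theorem coreF (r N ι τ : ℕ) (hr : 1 ≤ r) (hι : 1 ≤ ι) (hιN : ι + 2 * τ ≤ N)
    (h2r : 2 ^ r ≤ ι + 2 * τ + 3) (β : Fin r → ℂ) (h0 : ∀ i, β i ≠ 0)
    (hsum : ∑ i, β i = ((N + 1 - ι : ℤ) : ℂ))
    (h : ∀ t : ℤ, -(ι : ℤ) < t → t ≤ τ →
      ∑ S : Finset (Fin r), (-1 : ℂ) ^ S.card * bin N (N + t - ∑ i ∈ S, β i) = bin N (N + t)) :
    ∀ i, ∃ m : ℤ, β i = m := by
  have K1 : ∀ t : ℤ, -(ι : ℤ) < t → t ≤ τ →
      ∑ S ∈ Fs r, (-1 : ℂ) ^ S.card * bin N (N + t - ∑ i ∈ S, β i) = 0 := by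
    intro t h1 h2
    have h3 := h t h1 h2
    rw [sum_Fs hr] at h3
    have h4 : bin N (N + t - ∑ i ∈ (Finset.univ : Finset (Fin r)), β i) = 0 := by
      rw [hsum]
      have := bin_nat_zero N (t + ι - 1) (by omega) (by omega)
      rw [← this]
      congr 1
      push_cast
      ring
    rw [h4, mul_zero, zero_add, Finset.sum_empty, sub_zero, Finset.card_empty, pow_zero,
      one_mul] at h3
    linear_combination h3
  refine coreK r N hr (-(ι : ℤ) - τ) τ (by omega) (by omega) ?_ β h0 _ hsum ?_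
  · have : ((2 ^ r : ℕ) : ℤ) ≤ ((ι + 2 * τ + 3 : ℕ) : ℤ) := by exact_mod_cast h2r
    push_cast at this
    linarith
  intro t h1 h2
  rcases lt_or_ge (-(ι : ℤ)) t with h3 | h3
  · exact K1 t h3 h2
  · have h4 := K1 (-(ι : ℤ) - t) (by omega) (by omega)
    have h5 : ∑ S ∈ Fs r, (-1 : ℂ) ^ S.card * bin N (N + t - ∑ i ∈ S, β i) =
        ∑ T ∈ Fs r, (-1 : ℂ) ^ (N + r) *
          ((-1 : ℂ) ^ T.card * bin N (N + ((-(ι : ℤ) - t : ℤ) : ℂ) - ∑ i ∈ T, β i)) := by
      refine Finset.sum_nbij' (fun S => Sᶜ) (fun S => Sᶜ) ?_ ?_ ?_ ?_ ?_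
      · intro S hS
        rw [mem_Fs] at hS ⊢
        exact ⟨fun h => hS.2 (by simpa using h), fun h => hS.1 (by simpa using h)⟩
      · intro S hS
        rw [mem_Fs] at hS ⊢
        exact ⟨fun h => hS.2 (by simpa using h), fun h => hS.1 (by simpa using h)⟩
      · intro S _
        simp
      · intro S _
        simp
      · intro S _
        have e1 : ∑ i ∈ S, β i = ((N + 1 - ι : ℤ) : ℂ) - ∑ i ∈ Sᶜ, β i := by
          rw [← hsum, ← Finset.sum_add_sum_compl S β]
          ring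
        have e2 : (-1 : ℂ) ^ (N + r) * (-1 : ℂ) ^ Sᶜ.card = (-1) ^ N * (-1 : ℂ) ^ S.card := by
          have hp : (-1 : ℂ) ^ r = (-1 : ℂ) ^ S.card * (-1 : ℂ) ^ Sᶜ.card := by
            rw [← pow_add, Finset.card_add_card_compl, Fintype.card_fin]
          have hc : (-1 : ℂ) ^ Sᶜ.card * (-1 : ℂ) ^ Sᶜ.card = 1 := by
            rw [← mul_pow]
            simp
          rw [pow_add, hp]
          linear_combination ((-1 : ℂ) ^ N * (-1 : ℂ) ^ S.card) * hc
        rw [e1, ← mul_assoc, e2]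
        have e3 := bin_reflect N (((-(ι : ℤ) - t : ℤ) : ℂ) - ∑ i ∈ Sᶜ, β i)
        have e4 : (-1 : ℂ) - (((-(ι : ℤ) - t : ℤ) : ℂ) - ∑ i ∈ Sᶜ, β i) =
            N + t - (((N + 1 - ι : ℤ) : ℂ) - ∑ i ∈ Sᶜ, β i) := by
          push_cast
          ring
        rw [e4] at e3
        rw [e3, ← add_sub_assoc]
        ring
    rw [h5, ← Finset.mul_sum, h4, mul_zero]

end Pool.Agent.N17.FI
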