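import Pool.Agent.N17.FI.B
import Pool.Agent.N17.CK.POSEND

/-!
# Project FI: from the polynomial to its roots
-/

set_option autoImplicit false

open Polynomial Filter Topology

namespace Pool.Agent.N17.FI

open Pool.Agent.N17.HC Pool.Agent.N17.HC.FIN Pool.Agent.N17.CK

/-- the roots as a family -/
theorem exists_family (r : ℕ) (P : ℤ[X]) (hP : P.Monic) (hd : P.natDegree = r) :
    ∃ β : Fin r → ℂ, Finset.univ.val.map β = rootsOf P := by
  obtain ⟨l, hl⟩ := Quotient.exists_rep (rootsOf P)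
  have hl' : (l : Multiset ℂ) = rootsOf P := hl
  have hcard : l.length = r := by
    have h1 : Multiset.card (rootsOf P) = r := by
      unfold rootsOf
      rw [IsAlgClosed.card_roots_eq_natDegree, hP.natDegree_map, hd]
    rw [← h1, ← hl', Multiset.coe_card]
  subst hcard
  exact ⟨l.get, by rw [Fin.univ_val_map, List.ofFn_get, hl']⟩

theorem prod_family (r : ℕ) (P : ℤ[X]) (hP : P.Monic) (β : Fin r → ℂ)
    (hβ : Finset.univ.val.map β = rootsOf P) :
    P.map (Int.castRingHom ℂ) = ∏ i, (X - C (β i)) := by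
  have h1 : (P.map (Int.castRingHom ℂ)) =
      ((P.map (Int.castRingHom ℂ)).roots.map fun a => X - C a).prod :=
    (IsAlgClosed.splits _).eq_prod_roots_of_monic (hP.map _)
  rw [h1]
  change ((rootsOf P).map fun a => X - C a).prod = _
  rw [← hβ, Multiset.map_map]
  rfl

/-- the sum of the roots -/
theorem sum_family (r : ℕ) (hr : 1 ≤ r) (P : ℤ[X]) (hP : P.Monic) (hd : P.natDegree = r)
    (β : Fin r → ℂ) (hβ : Finset.univ.val.map β = rootsOf P) :
    ∑ i, β i = ((- P.coeff (r - 1) : ℤ) : ℂ) := by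
  have h1 := Polynomial.prod_X_sub_C_nextCoeff (R := ℂ) (s := Finset.univ) β
  rw [← prod_family r P hP β hβ, nextCoeff_of_natDegree_pos (by rw [hP.natDegree_map]; omega),
    hP.natDegree_map, hd, coeff_map, eq_intCast] at h1
  rw [Int.cast_neg, h1, neg_neg]

/-- the Koszul sum -/
theorem kos_family (r N : ℕ) (P : ℤ[X]) (β : Fin r → ℂ)
    (hβ : Finset.univ.val.map β = rootsOf P) (x : ℂ) :
    kos N (rootsOf P) x = ∑ S : Finset (Fin r), (-1 : ℂ) ^ S.card * bin N (x - ∑ i ∈ S, β i) := by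
  unfold kos
  rw [← hβ, sum_powerset_map β (fun S => (-1) ^ Multiset.card S * bin N (x - S.sum)) Finset.univ,
    Finset.powerset_univ]
  refine Finset.sum_congr rfl fun S _ => ?_
  rw [Multiset.card_map]
  rfl

/-- the end -/
theorem conclude (r : ℕ) (P : ℤ[X]) (hP : P.Monic) (hd : P.natDegree = r)
    (hpos : ∀ i ≤ r, 0 ≤ chern r P i) (β : Fin r → ℂ)
    (hβ : Finset.univ.val.map β = rootsOf P) (h : ∀ i, ∃ m : ℤ, β i = m) :
    ∃ a : Fin r → ℤ, (∀ i, 1 ≤ a i) ∧ P = ∏ i, (X - C (a i)) := by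
  choose a ha using h
  have hPa : P = ∏ i, (X - C (a i)) := by
    have hinj : Function.Injective (Polynomial.map (Int.castRingHom ℂ)) :=
      Polynomial.map_injective _ Int.cast_injective
    apply hinj
    rw [prod_family r P hP β hβ, Polynomial.map_prod]
    refine Finset.prod_congr rfl fun i _ => ?_
    rw [ha i]
    simp
  refine ⟨a, fun i => ?_, hPa⟩
  refine (t_POS r P hP hd hpos).2 (a i) ?_
  rw [hPa]
  exact Finset.dvd_prod_of_mem _ (Finset.mem_univ i)

theorem ne_zero_family (r : ℕ) (P : ℤ[X]) (hP : P.Monic) (hd : P.natDegree = r)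
    (hpos : ∀ i ≤ r, 0 ≤ chern r P i) (β : Fin r → ℂ)
    (hβ : Finset.univ.val.map β = rootsOf P) : ∀ i, β i ≠ 0 := by
  intro i hi
  have h1 := (t_POS r P hP hd hpos).1
  have h2 : (P.map (Int.castRingHom ℂ)).eval 0 = 0 := by
    rw [prod_family r P hP β hβ, eval_prod, Finset.prod_eq_zero (Finset.mem_univ i)]
    rw [hi]
    simp
  have h3 : P.coeff 0 = 0 := by
    rw [← coeff_zero_eq_eval_zero, coeff_map, eq_intCast] at h2
    exact_mod_cast h2
  rw [h3, mul_zero] at h1
  omega

end Pool.Agent.N17.FI
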